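import Pool.Agent.W600.Opp.Final

/-!
# Opposite vertices of integer g-polymatroids: vertices with at most two `1`s and two `-1`s
-/

set_option autoImplicit false

open Finset

namespace Pool.Agent.Results.MP_8bd56d_co.AtMostTwo

open Pool.Agent.W600.Opp (GQ Paired)

/-- Let `(p, b)` be a paired pair of integer valued set functions on `{1, ..., n}` and
`Q = Q(p, b)` the integer g-polymatroid they define. Suppose that `0 ∈ Q`, that every vertex of
`Q` lies in `{0, 1, -1}^n`, and that every vertex of `Q` has at most two coordinates equal to `1`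
and at most two coordinates equal to `-1`. Then `Q` has a vertex `v` with `-v ∈ Q`. -/
theorem result (n : ℕ) (p b : Finset (Fin n) → ℤ) (hpb : Paired p b)
    (h0 : (0 : Fin n → ℝ) ∈ GQ p b)
    (hv : ∀ v ∈ (GQ p b).extremePoints ℝ, ∀ i, v i = 0 ∨ v i = 1 ∨ v i = -1)
    (h2 : ∀ v ∈ (GQ p b).extremePoints ℝ,
      (univ.filter (fun i => v i = 1)).card ≤ 2 ∧
        (univ.filter (fun i => v i = -1)).card ≤ 2) :
    ∃ v ∈ (GQ p b).extremePoints ℝ, -v ∈ GQ p b :=
  Pool.Agent.W600.Opp.main hpb h0 hv h2

end Pool.Agent.Results.MP_8bd56d_co.AtMostTwo
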